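import Pool.Agent.H16.PI.Base

set_option autoImplicit false

namespace Pool.Agent.H72.PI

open Polynomial Pool.Agent Pool.Agent.Helper35 Pool.Agent.H16.PI

theorem ht_le_of_dvd {P Q : ℤ[X]} (hP : Irreducible P) (hQ : Irreducible Q) (h : P ∣ Q) :
    ht Q ≤ ht P := by
  obtain ⟨u, hu⟩ := hP.associated_of_dvd hQ h
  obtain ⟨r, hr, hru⟩ := Polynomial.isUnit_iff.1 u.isUnit
  have hr1 : r.natAbs = 1 := Int.isUnit_iff_natAbs_eq.1 hr
  apply Finset.sup_le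
  intro i _
  rw [← hu, ← hru, coeff_mul_C, Int.natAbs_mul, hr1, mul_one]
  exact natAbs_coeff_le_ht P i

theorem dvd_of_root {P Q : ℤ[X]} {ξ : ℝ} (hP : Irreducible P) (hP' : P.IsPrimitive)
    (hPξ : aeval ξ P = 0) (hQξ : aeval ξ Q = 0) : P ∣ Q := by
  have h1 : Irreducible (P.map (Int.castRingHom ℚ)) :=
    (IsPrimitive.Int.irreducible_iff_irreducible_map_cast hP').1 hP
  have e : ∀ R : ℤ[X], aeval ξ (R.map (Int.castRingHom ℚ)) = aeval ξ R := fun R =>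
    aeval_map_algebraMap ℚ ξ R
  have hint : IsIntegral ℚ ξ := by
    apply IsAlgebraic.isIntegral
    exact ⟨P.map (Int.castRingHom ℚ), h1.ne_zero, by rw [e, hPξ]⟩
  have hm := minpoly.irreducible hint
  have hass : Associated (minpoly ℚ ξ) (P.map (Int.castRingHom ℚ)) :=
    hm.associated_of_dvd h1 (minpoly.dvd ℚ ξ (by rw [e, hPξ]))
  rw [IsPrimitive.Int.dvd_iff_map_cast_dvd_map_cast P Q hP']
  exact hass.symm.dvd.trans (minpoly.dvd ℚ ξ (by rw [e, hQξ]))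

theorem exists_ht_bound (ξ : ℝ) : ∃ H : ℕ, ∀ P : ℤ[X], Irreducible P → P.IsPrimitive →
    aeval ξ P = 0 → ht P ≤ H := by
  by_cases h : ∃ P : ℤ[X], Irreducible P ∧ P.IsPrimitive ∧ aeval ξ P = 0
  · obtain ⟨P0, h1, h2, h3⟩ := h
    exact ⟨ht P0, fun P g1 g2 g3 => ht_le_of_dvd h1 g1 (dvd_of_root h1 h2 h3 g3)⟩
  · push Not at h
    exact ⟨0, fun P g1 g2 g3 => absurd g3 (h P g1 g2)⟩

theorem abs_aeval_sub_le3 (P : ℤ[X]) (x y M : ℝ) (hM : 1 ≤ M) (hx : |x| ≤ M) (hy : |y| ≤ M)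
    (n : ℕ) (hn : P.natDegree ≤ n) :
    |aeval x P - aeval y P| ≤ (((n : ℝ) + 1) ^ 2 * M ^ n) * ht P * |x - y| := by
  have hnr : (P.natDegree : ℝ) ≤ n := by exact_mod_cast hn
  have hM0 : 0 ≤ M := by linarith
  rw [aeval_eq_sum, aeval_eq_sum, ← Finset.sum_sub_distrib]
  refine (Finset.abs_sum_le_sum_abs _ _).trans ?_
  have hb : ∀ i ∈ Finset.range (P.natDegree + 1),
      |(P.coeff i : ℝ) * x ^ i - (P.coeff i : ℝ) * y ^ i| ≤
        (ht P : ℝ) * (|x - y| * ((n : ℝ) + 1) * M ^ n) := by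
    intro i hi
    rw [Finset.mem_range] at hi
    rw [← mul_sub, abs_mul]
    have h1 := abs_coeff_le_ht P i
    have h2 := abs_pow_sub_pow_le x y i
    have h3 : (max |x| |y|) ^ (i - 1) ≤ M ^ n :=
      (pow_le_pow_left₀ (le_max_of_le_left (abs_nonneg x)) (max_le hx hy) _).trans
        (pow_le_pow_right₀ hM (by omega))
    have h4 : (i : ℝ) ≤ (n : ℝ) + 1 := by
      have : i ≤ n + 1 := by omega
      exact_mod_cast this
    have h5 : |x - y| * (i : ℝ) * (max |x| |y|) ^ (i - 1) ≤ |x - y| * ((n : ℝ) + 1) * M ^ n := by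
      have h6 : (0 : ℝ) ≤ (max |x| |y|) ^ (i - 1) := by positivity
      gcongr
    exact mul_le_mul h1 (h2.trans h5) (abs_nonneg _) (by positivity)
  refine (Finset.sum_le_sum hb).trans ?_
  rw [Finset.sum_const, Finset.card_range, nsmul_eq_mul]
  push_cast
  have h7 : (P.natDegree : ℝ) + 1 ≤ (n : ℝ) + 1 := by linarith
  have h8 : (0 : ℝ) ≤ (ht P : ℝ) * (|x - y| * ((n : ℝ) + 1) * M ^ n) := by positivity
  calc ((P.natDegree : ℝ) + 1) * ((ht P : ℝ) * (|x - y| * ((n : ℝ) + 1) * M ^ n))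
      ≤ ((n : ℝ) + 1) * ((ht P : ℝ) * (|x - y| * ((n : ℝ) + 1) * M ^ n)) :=
        mul_le_mul_of_nonneg_right h7 h8
    _ = (((n : ℝ) + 1) ^ 2 * M ^ n) * ht P * |x - y| := by ring

open IntermediateField in
/-- Liouville's inequality, for all polynomials of bounded degree, with an exponent that does not
depend on the degree. -/
theorem liouville_all (ξ : ℝ) (hξ : IsAlgebraic ℚ ξ) : ∃ d : ℕ, ∀ n : ℕ, ∃ c : ℝ, 0 < c ∧
    ∀ P : ℤ[X], P.natDegree ≤ n → aeval ξ P ≠ 0 → c ≤ |aeval ξ P| * (ht P : ℝ) ^ d := by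
  classical
  have hint : IsIntegral ℚ ξ := hξ.isIntegral
  have : FiniteDimensional ℚ ℚ⟮ξ⟯ := adjoin.finiteDimensional hint
  set g : ℚ⟮ξ⟯ := AdjoinSimple.gen ℚ ξ with hg
  have hgalg : IsAlgebraic ℤ g := by
    rw [IsFractionRing.isAlgebraic_iff ℤ ℚ ℚ⟮ξ⟯]
    exact Algebra.IsAlgebraic.isAlgebraic g
  obtain ⟨y, hy0, hyint⟩ := hgalg.exists_integral_multiple
  set σ₀ : ℚ⟮ξ⟯ →ₐ[ℚ] ℂ := (Complex.ofRealAm.restrictScalars ℚ).comp (ℚ⟮ξ⟯).val with hσ₀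
  set M : ℝ := 1 + ∑ σ : ℚ⟮ξ⟯ →ₐ[ℚ] ℂ, ‖σ g‖ with hM
  have hM1 : 1 ≤ M := by
    rw [hM]; have : 0 ≤ ∑ σ : ℚ⟮ξ⟯ →ₐ[ℚ] ℂ, ‖σ g‖ := Finset.sum_nonneg fun _ _ => norm_nonneg _
    linarith
  have hσM : ∀ σ : ℚ⟮ξ⟯ →ₐ[ℚ] ℂ, ‖σ g‖ ≤ M := by
    intro σ
    have := Finset.single_le_sum (f := fun σ : ℚ⟮ξ⟯ →ₐ[ℚ] ℂ => ‖σ g‖)
      (fun _ _ => norm_nonneg _) (Finset.mem_univ σ)
    rw [hM]; linarith
  set e : ℕ := (Finset.univ.erase σ₀).card with he
  refine ⟨e, fun n => ?_⟩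
  have hy1 : (0 : ℝ) < |(y : ℝ)| := abs_pos.2 (by exact_mod_cast hy0)
  set B : ℝ := |(y : ℝ)| ^ n * (((n : ℝ) + 1) * M ^ n) with hB
  have hB0 : 0 < B := by positivity
  refine ⟨1 / (|(y : ℝ)| ^ n * B ^ e), by positivity, fun P hPn hP0 => ?_⟩
  set β : ℚ⟮ξ⟯ := (y ^ n : ℤ) • aeval g P with hβ
  have hβint : IsIntegral ℤ β := by
    have : β = ∑ i ∈ Finset.range (n + 1), (P.coeff i * y ^ (n - i)) • (y • g) ^ i := by
      rw [hβ, aeval_eq_sum_range' (by omega : P.natDegree < n + 1), Finset.smul_sum]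
      apply Finset.sum_congr rfl
      intro i hi
      rw [Finset.mem_range] at hi
      rw [_root_.smul_pow, smul_smul, smul_smul]
      congr 1
      rw [mul_assoc, ← pow_add, mul_comm]
      congr 2
      omega
    rw [this]
    apply IsIntegral.sum
    intro i _
    exact (hyint.pow i).smul _
  have hσP : ∀ σ : ℚ⟮ξ⟯ →ₐ[ℚ] ℂ, σ β = ((y : ℂ)) ^ n * aeval (σ g) P := by
    intro σ
    rw [hβ, map_zsmul, zsmul_eq_mul]
    push_cast
    congr 1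
    rw [aeval_eq_sum_range, aeval_eq_sum_range, map_sum]
    apply Finset.sum_congr rfl
    intro i _
    rw [map_zsmul, map_pow]
  have hσ₀g : σ₀ g = ((ξ : ℝ) : ℂ) := by
    have h1 : σ₀ g = ((g : ℝ) : ℂ) := rfl
    rw [h1, hg, AdjoinSimple.coe_gen]
  have hσ₀β : ‖σ₀ β‖ = |(y : ℝ)| ^ n * |aeval ξ P| := by
    rw [hσP, hσ₀g, norm_mul, norm_pow]
    have h1 : ‖(y : ℂ)‖ = |(y : ℝ)| := by
      rw [← Complex.ofReal_intCast, Complex.norm_real, Real.norm_eq_abs]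
    have h2 : aeval ((ξ : ℝ) : ℂ) P = ((aeval ξ P : ℝ) : ℂ) := by
      rw [aeval_eq_sum_range, aeval_eq_sum_range]
      push_cast
      apply Finset.sum_congr rfl
      intro i _
      simp
    rw [h1, h2, Complex.norm_real, Real.norm_eq_abs]
  have hσβ : ∀ σ : ℚ⟮ξ⟯ →ₐ[ℚ] ℂ, ‖σ β‖ ≤ B * ht P := by
    intro σ
    rw [hσP, norm_mul, norm_pow]
    have h1 : ‖(y : ℂ)‖ = |(y : ℝ)| := by
      rw [← Complex.ofReal_intCast, Complex.norm_real, Real.norm_eq_abs]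
    have h2 : ‖aeval (σ g) P‖ ≤ ((n : ℝ) + 1) * M ^ n * ht P := by
      rw [aeval_eq_sum_range' (by omega : P.natDegree < n + 1)]
      refine (norm_sum_le _ _).trans ?_
      have hb : ∀ i ∈ Finset.range (n + 1), ‖P.coeff i • (σ g) ^ i‖ ≤ M ^ n * ht P := by
        intro i hi
        rw [Finset.mem_range] at hi
        rw [zsmul_eq_mul, norm_mul, norm_pow]
        have h3 : ‖((P.coeff i : ℤ) : ℂ)‖ ≤ ht P := by
          rw [← Complex.ofReal_intCast, Complex.norm_real, Real.norm_eq_abs]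
          exact abs_coeff_le_ht P i
        have h4 : ‖σ g‖ ^ i ≤ M ^ n :=
          (pow_le_pow_left₀ (norm_nonneg _) (hσM σ) i).trans (pow_le_pow_right₀ hM1 (by omega))
        rw [mul_comm]
        exact mul_le_mul h4 h3 (norm_nonneg _) (by positivity)
      refine (Finset.sum_le_sum hb).trans ?_
      rw [Finset.sum_const, Finset.card_range, nsmul_eq_mul]
      push_cast
      exact le_of_eq (by ring)
    rw [h1, hB]
    calc |(y : ℝ)| ^ n * ‖aeval (σ g) P‖ ≤ |(y : ℝ)| ^ n * (((n : ℝ) + 1) * M ^ n * ht P) := by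
          gcongr
      _ = |(y : ℝ)| ^ n * (((n : ℝ) + 1) * M ^ n) * ht P := by ring
  have hβ0 : β ≠ 0 := by
    intro h
    have h1 : ‖σ₀ β‖ = 0 := by rw [h, map_zero, norm_zero]
    rw [hσ₀β] at h1
    have h2 : 0 < |(y : ℝ)| ^ n * |aeval ξ P| := mul_pos (pow_pos hy1 n) (abs_pos.2 hP0)
    linarith
  have hnorm1 : (1 : ℝ) ≤ ∏ σ : ℚ⟮ξ⟯ →ₐ[ℚ] ℂ, ‖σ β‖ := by
    have hn := Algebra.norm_eq_prod_embeddings ℚ ℂ β
    have h1 : IsIntegral ℤ (Algebra.norm ℚ β) := Algebra.isIntegral_norm ℚ hβint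
    obtain ⟨z, hz⟩ := IsIntegrallyClosed.isIntegral_iff.1 h1
    have h2 : Algebra.norm ℚ β ≠ 0 := Algebra.norm_ne_zero_iff.2 hβ0
    have hz0 : z ≠ 0 := by
      rintro rfl
      apply h2
      rw [← hz, map_zero]
    rw [← norm_prod, ← hn, ← hz]
    have h3 : (algebraMap ℚ ℂ) ((algebraMap ℤ ℚ) z) = (((z : ℤ) : ℝ) : ℂ) := by
      simp
    rw [h3, Complex.norm_real, Real.norm_eq_abs, ← Int.cast_abs]
    exact_mod_cast Int.one_le_abs hz0
  rw [← Finset.mul_prod_erase Finset.univ (fun σ : ℚ⟮ξ⟯ →ₐ[ℚ] ℂ => ‖σ β‖)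
    (Finset.mem_univ σ₀)] at hnorm1
  have h5 : ∏ σ ∈ Finset.univ.erase σ₀, ‖σ β‖ ≤ (B * ht P) ^ e := by
    rw [he, ← Finset.prod_const]
    exact Finset.prod_le_prod (fun _ _ => norm_nonneg _) fun σ _ => hσβ σ
  have h6 : 1 ≤ |(y : ℝ)| ^ n * |aeval ξ P| * (B * ht P) ^ e := by
    refine hnorm1.trans ?_
    rw [hσ₀β]
    gcongr
  rw [div_le_iff₀ (by positivity)]
  refine h6.trans (le_of_eq ?_)
  rw [mul_pow]
  ring

theorem stJ : StJ := by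
  intro ξ hξ
  obtain ⟨D, hD⟩ := liouville_all ξ hξ
  refine ⟨D, fun n w hw => ?_⟩
  obtain ⟨c, hc, h⟩ := hD n
  obtain ⟨H₀, hH₀⟩ := exists_ht_bound ξ
  by_contra hcon
  push Not at hcon
  have hE0 : (0 : ℝ) ≤ D := Nat.cast_nonneg _
  set M : ℝ := |ξ| + 1 with hM
  have hM1 : 1 ≤ M := by rw [hM]; linarith [abs_nonneg ξ]
  set K : ℝ := (((n : ℝ) + 1) ^ 2 * M ^ n) with hK
  have hKpos : 0 < K := by rw [hK]; positivity
  have hlim : Filter.Tendsto (fun H : ℕ => (H : ℝ) ^ (w - D)) Filter.atTop Filter.atTop :=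
    (tendsto_rpow_atTop (by linarith)).comp tendsto_natCast_atTop_atTop
  obtain ⟨H, hH⟩ := Filter.eventually_atTop.mp (hlim.eventually_gt_atTop (K / c))
  obtain ⟨α, hα, P, hP0, hPr, hPd, ⟨hPi, hPp, hPpos, hPle⟩, hPH⟩ :=
    exists_ht_gt_alg (n := n) hw (fun P α => Irreducible P ∧ P.IsPrimitive ∧ 0 < |ξ - α| ∧
        |ξ - α| ≤ (ht P : ℝ) ^ (-w - 1))
      (fun α hα => by
        obtain ⟨P, ⟨h1, h2, h3, h4⟩, h5, h6, h7⟩ := hα
        exact ⟨P, h1.ne_zero, h4, h5, h1, h2, h6, h7⟩) (max (max H 1) H₀)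
  have hPξ : aeval ξ P ≠ 0 := by
    intro h0
    have := hH₀ P hPi hPp h0
    omega
  have h2 := hH (ht P) (by omega)
  have hhtr : (1 : ℝ) ≤ ht P := by exact_mod_cast ht_pos hP0
  have hhtpos : (0 : ℝ) < ht P := by linarith
  have hdist : |ξ - α| ≤ 1 := by
    refine hPle.trans ?_
    exact Real.rpow_le_one_of_one_le_of_nonpos hhtr (by linarith)
  have hα2 : |α| ≤ M := by
    have : |α| ≤ |ξ| + |ξ - α| := by
      have := abs_sub_abs_le_abs_sub α ξ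
      rw [abs_sub_comm α ξ] at this
      linarith
    linarith
  have h1 := h P hPd hPξ
  have h3 : |aeval ξ P| ≤ K * ht P * |ξ - α| := by
    have := abs_aeval_sub_le3 P ξ α M hM1 (by rw [hM]; linarith) hα2 n hPd
    rw [hPr, sub_zero] at this
    exact this
  have h4 : c ≤ (K * ht P * (ht P : ℝ) ^ (-w - 1)) * (ht P : ℝ) ^ D := by
    refine h1.trans ?_
    gcongr
    exact h3.trans (by gcongr)
  have h5 : (K * ht P * (ht P : ℝ) ^ (-w - 1)) * (ht P : ℝ) ^ D =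
      K * ((ht P : ℝ) ^ (w - D))⁻¹ := by
    have e1 : (ht P : ℝ) * (ht P : ℝ) ^ (-w - 1) = (ht P : ℝ) ^ (-w) := by
      have : (ht P : ℝ) * (ht P : ℝ) ^ (-w - 1) =
          (ht P : ℝ) ^ (1 : ℝ) * (ht P : ℝ) ^ (-w - 1) := by rw [Real.rpow_one]
      rw [this, ← Real.rpow_add hhtpos]; congr 1; ring
    rw [mul_assoc K, e1, mul_assoc, ← Real.rpow_natCast (ht P : ℝ) D, ← Real.rpow_add hhtpos,
      ← Real.rpow_neg hhtpos.le]
    congr 2; ring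
  rw [h5] at h4
  have h6 : K * ((ht P : ℝ) ^ (w - D))⁻¹ < c := by
    have hp : 0 < (ht P : ℝ) ^ (w - D) := by positivity
    rw [← div_eq_mul_inv, div_lt_iff₀ hp]
    rw [div_lt_iff₀ hc] at h2
    linarith
  linarith

end Pool.Agent.H72.PI
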